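import Mathlib
import Pool.Agent.Helper99.SZ.Stmts3

/-! Counting: adding the argument as a coordinate. -/

set_option autoImplicit false

namespace Pool.Helper99.SZ

open NumberField

theorem arc_prod (L : Type) [Field L] (n : ℕ) (g : Fin n → L) (g' : Fin (n + 1) → L)
    (h0 : g' 0 = 1) (hs : ∀ i : Fin n, g' i.succ = g i) (a : Fin (n + 1) → ℤ) :
    ∏ i, g' i ^ (a i) = ∏ i, g i ^ (a i.succ) := by
  rw [Fin.prod_univ_succ, h0, one_zpow, one_mul]
  exact Finset.prod_congr rfl fun i _ => by rw [hs i]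

theorem arc_sum (n : ℕ) (c : Fin n → ℝ) (c' : Fin (n + 1) → ℝ) (h0 : c' 0 = 2 * Real.pi)
    (hs : ∀ i : Fin n, c' i.succ = c i) (a : Fin (n + 1) → ℤ) :
    ∑ i, c' i * (a i : ℝ) = 2 * Real.pi * (a 0 : ℝ) + ∑ i, c i * (a i.succ : ℝ) := by
  rw [Fin.sum_univ_succ, h0]
  congr 1
  exact Finset.sum_congr rfl fun i _ => by rw [hs i]

theorem arc_card_one (n : ℕ) (y : (ℤ × (Fin n → ℤ)) → ℝ)
    (hy : ∀ a b, y (a - b) = y a - y b)
    (S : Finset (ℤ × (Fin n → ℤ))) (T : Finset (ℤ × (Fin (n + 1) → ℤ))) (M : ℕ) (hM : 1 ≤ M)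
    (hT : ∀ a ∈ S, ∀ b ∈ S, ∀ t : ℤ, |y (a - b) - 2 * Real.pi * t| ≤ 2 * Real.pi / M →
      ((a - b).1, (Fin.cons (-t) (a - b).2 : Fin (n + 1) → ℤ)) ∈ T) :
    S.card ≤ T.card * M := by
  classical
  have : NeZero M := ⟨by omega⟩
  have hMR : (0 : ℝ) < M := by exact_mod_cast hM
  have hpi := Real.pi_pos
  have hcard : (Finset.univ : Finset (ZMod M)).card = M := by
    rw [Finset.card_univ, ZMod.card]
  rw [← hcard]
  apply Finset.card_le_mul_card_image_of_maps_to
    (f := fun a : ℤ × (Fin n → ℤ) => ((⌊y a * M / (2 * Real.pi)⌋ : ℤ) : ZMod M))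
    (fun a _ => Finset.mem_univ _)
  intro b _
  by_cases hne : (S.filter (fun a => ((⌊y a * M / (2 * Real.pi)⌋ : ℤ) : ZMod M) = b)).Nonempty
  swap
  · rw [Finset.not_nonempty_iff_eq_empty] at hne
    rw [hne, Finset.card_empty]
    exact Nat.zero_le _
  obtain ⟨b0, hb0⟩ := hne
  rw [Finset.mem_filter] at hb0
  have key : ∀ a : ℤ × (Fin n → ℤ),
      a ∈ S.filter (fun a => ((⌊y a * M / (2 * Real.pi)⌋ : ℤ) : ZMod M) = b) →
      ∃ t : ℤ, |y (a - b0) - 2 * Real.pi * t| ≤ 2 * Real.pi / M := by
    intro a ha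
    rw [Finset.mem_filter] at ha
    have h1 : ((⌊y a * M / (2 * Real.pi)⌋ : ℤ) : ZMod M) =
        ((⌊y b0 * M / (2 * Real.pi)⌋ : ℤ) : ZMod M) := ha.2.trans hb0.2.symm
    rw [ZMod.intCast_eq_intCast_iff_dvd_sub] at h1
    obtain ⟨t, ht⟩ := h1
    refine ⟨-t, ?_⟩
    have ht' : ((⌊y b0 * M / (2 * Real.pi)⌋ : ℤ) : ℝ) - ((⌊y a * M / (2 * Real.pi)⌋ : ℤ) : ℝ) =
        (M : ℝ) * t := by exact_mod_cast ht
    have ha1 := Int.floor_le (y a * M / (2 * Real.pi))
    have ha2 := Int.lt_floor_add_one (y a * M / (2 * Real.pi))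
    have hb1 := Int.floor_le (y b0 * M / (2 * Real.pi))
    have hb2 := Int.lt_floor_add_one (y b0 * M / (2 * Real.pi))
    have e1 : y (a - b0) - 2 * Real.pi * ((-t : ℤ) : ℝ) =
        (y a * M / (2 * Real.pi) - y b0 * M / (2 * Real.pi) + (M : ℝ) * t) *
          (2 * Real.pi / M) := by
      rw [hy]
      push_cast
      field_simp
      ring
    rw [e1, abs_mul, abs_of_pos (show (0 : ℝ) < 2 * Real.pi / M by positivity)]
    have h2 : |y a * M / (2 * Real.pi) - y b0 * M / (2 * Real.pi) + (M : ℝ) * t| ≤ 1 := by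
      rw [abs_le]
      constructor <;> linarith
    have h3 : (0 : ℝ) ≤ 2 * Real.pi / M := by positivity
    nlinarith
  choose! t ht using key
  apply Finset.card_le_card_of_injOn
    (fun a => ((a - b0).1, (Fin.cons (-(t a)) (a - b0).2 : Fin (n + 1) → ℤ)))
  · intro a ha
    exact hT a (Finset.mem_filter.1 ha).1 b0 hb0.1 (t a) (ht a ha)
  · intro a _ a' _ h
    simp only [Prod.mk.injEq] at h
    have h1 := h.1
    have h2 := h.2
    have h3 : (a - b0).2 = (a' - b0).2 := by
      funext i
      have := congrFun h2 i.succ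
      simpa using this
    have h4 : a - b0 = a' - b0 := Prod.ext h1 h3
    exact sub_left_injective h4

theorem arc_card_two (n : ℕ) (y : (ℤ × (Fin n → ℤ)) → ℝ)
    (S : Finset (ℤ × (Fin n → ℤ))) (T : Finset (ℤ × (Fin (n + 1) → ℤ))) (K : ℕ)
    (hT : ∀ a ∈ S, ∀ t : ℤ, |y a + 2 * Real.pi * t| ≤ 2 * Real.pi * K →
      (a.1, (Fin.cons t a.2 : Fin (n + 1) → ℤ)) ∈ T) :
    S.card * K ≤ T.card := by
  classical
  have hpi := Real.pi_pos
  have h1 : (S ×ˢ Finset.range K).card = S.card * K := by
    rw [Finset.card_product, Finset.card_range]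
  rw [← h1]
  apply Finset.card_le_card_of_injOn
    (fun x : (ℤ × (Fin n → ℤ)) × ℕ => (x.1.1,
      (Fin.cons (-⌊y x.1 / (2 * Real.pi)⌋ + (x.2 : ℤ)) x.1.2 : Fin (n + 1) → ℤ)))
  · intro x hx
    have hx' := Finset.mem_product.1 hx
    apply hT x.1 hx'.1
    have hk : (x.2 : ℝ) + 1 ≤ K := by exact_mod_cast Finset.mem_range.1 hx'.2
    have ha1 := Int.floor_le (y x.1 / (2 * Real.pi))
    have ha2 := Int.lt_floor_add_one (y x.1 / (2 * Real.pi))
    have hk0 : (0 : ℝ) ≤ (x.2 : ℝ) := Nat.cast_nonneg _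
    have e1 : y x.1 + 2 * Real.pi * ((-⌊y x.1 / (2 * Real.pi)⌋ + (x.2 : ℤ) : ℤ) : ℝ) =
        2 * Real.pi * (y x.1 / (2 * Real.pi) - (⌊y x.1 / (2 * Real.pi)⌋ : ℝ) + x.2) := by
      push_cast
      field_simp
      ring
    rw [e1, abs_mul, abs_of_pos (show (0 : ℝ) < 2 * Real.pi by positivity)]
    have h2 : |y x.1 / (2 * Real.pi) - (⌊y x.1 / (2 * Real.pi)⌋ : ℝ) + x.2| ≤ K := by
      rw [abs_le]
      constructor <;> linarith
    have h3 : (0 : ℝ) ≤ 2 * Real.pi := by positivity
    nlinarith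
  · intro x _ x' _ h
    simp only [Prod.mk.injEq] at h
    have h1 := h.1
    have h2 := h.2
    have h3 : x.1.2 = x'.1.2 := by
      funext i
      have := congrFun h2 i.succ
      simpa using this
    have h4 : x.1 = x'.1 := Prod.ext h1 h3
    have h5 := congrFun h2 0
    simp only [Fin.cons_zero] at h5
    rw [h4] at h5
    have h6 : (x.2 : ℤ) = x'.2 := by linarith
    exact Prod.ext h4 (by exact_mod_cast h6)

theorem st_ARC : ST_ARC := by
  intro L _ _ n φ g0 g nrm G Z c lam0 hG hZ hL _ _ hc hcg c' g' nrm' hc0 hcs hg0 hgs hnrm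
  have hpi := Real.pi_pos
  have hpi3 := Real.pi_gt_three
  have hpi4 := Real.pi_lt_four
  have heG : (1 : ℝ) ≤ Real.exp G := Real.one_le_exp (by linarith)
  have heG0 : (0 : ℝ) < Real.exp G := Real.exp_pos G
  have hnn : ∀ a, 0 ≤ nrm a := fun a => le_trans (abs_nonneg _) (hL.co0 a)
  -- the linear form
  set y : (ℤ × (Fin n → ℤ)) → ℝ := fun a => ∑ i, c i * (a.2 i : ℝ) with hy
  have hn1 : ∀ a : ℤ × (Fin (n + 1) → ℤ), nrm' a = nrm (a.1, fun i => a.2 i.succ) +
      Real.exp G * |2 * Real.pi * (a.2 0 : ℝ) + y (a.1, fun i => a.2 i.succ)| := by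
    intro a
    rw [hnrm a, arc_sum n c c' hc0 hcs a.2]
  have hle : ∀ a : ℤ × (Fin (n + 1) → ℤ), nrm (a.1, fun i => a.2 i.succ) ≤ nrm' a := by
    intro a
    rw [hn1 a]
    have : 0 ≤ Real.exp G * |2 * Real.pi * (a.2 0 : ℝ) + y (a.1, fun i => a.2 i.succ)| := by
      positivity
    linarith
  have hyab : ∀ a, |y a| ≤ 40 * n * Z * nrm a := by
    intro a
    calc |y a| ≤ ∑ i, |c i * (a.2 i : ℝ)| := Finset.abs_sum_le_sum_abs _ _
      _ ≤ ∑ _i : Fin n, 40 * (Z * nrm a) := by
          apply Finset.sum_le_sum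
          intro i _
          rw [abs_mul]
          exact mul_le_mul (hc i) (hL.coo a i) (abs_nonneg _) (by norm_num)
      _ = 40 * n * Z * nrm a := by
          rw [Finset.sum_const, Finset.card_univ, Fintype.card_fin, nsmul_eq_mul]
          ring
  have hn0 : (0 : ℝ) ≤ n := Nat.cast_nonneg n
  have ha0 : ∀ a : ℤ × (Fin (n + 1) → ℤ), |(a.2 0 : ℝ)| ≤ (1 + 40 * n * Z) * nrm' a := by
    intro a
    have h1 := hyab (a.1, fun i => a.2 i.succ)
    have h2 := hle a
    have h3 := hn1 a
    have h4 := hnn (a.1, fun i => a.2 i.succ)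
    set u := |2 * Real.pi * (a.2 0 : ℝ) + y (a.1, fun i => a.2 i.succ)| with hu
    have hu0 : 0 ≤ u := abs_nonneg _
    have h5 : u ≤ nrm' a := by nlinarith
    have h6 : |2 * Real.pi * (a.2 0 : ℝ)| ≤ u + |y (a.1, fun i => a.2 i.succ)| := by
      have := abs_sub (2 * Real.pi * (a.2 0 : ℝ) + y (a.1, fun i => a.2 i.succ))
        (y (a.1, fun i => a.2 i.succ))
      simpa using this
    rw [abs_mul, abs_of_pos (show (0 : ℝ) < 2 * Real.pi by positivity)] at h6
    have h7 : 40 * n * Z * nrm (a.1, fun i => a.2 i.succ) ≤ 40 * n * Z * nrm' a :=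
      mul_le_mul_of_nonneg_left h2 (by positivity)
    have h8 : |(a.2 0 : ℝ)| ≤ 2 * Real.pi * |(a.2 0 : ℝ)| := by
      have := abs_nonneg (a.2 0 : ℝ)
      nlinarith
    linarith
  have hLD : LD L (n + 1) g0 g' nrm' G (1 + 40 * ((n : ℝ) + 1) * Z) := by
    refine ⟨hL.ne0, ?_, ?_, ?_, ?_, ?_, ?_, ?_, ?_, hL.tor, ?_⟩
    · intro i
      refine Fin.cases ?_ (fun j => ?_) i
      · rw [hg0]; exact one_ne_zero
      · rw [hgs j]; exact hL.ne j
    · intro a b
      rw [hn1, hn1, hn1]
      have h1 := hL.add (a.1, fun i => a.2 i.succ) (b.1, fun i => b.2 i.succ)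
      have h2 : (2 * Real.pi * ((a + b).2 0 : ℝ) + y ((a + b).1, fun i => (a + b).2 i.succ)) =
          (2 * Real.pi * (a.2 0 : ℝ) + y (a.1, fun i => a.2 i.succ)) +
          (2 * Real.pi * (b.2 0 : ℝ) + y (b.1, fun i => b.2 i.succ)) := by
        simp only [hy, Prod.snd_add, Pi.add_apply, Int.cast_add]
        have : ∑ x, c x * ((a.2 x.succ : ℝ) + (b.2 x.succ : ℝ)) =
            ∑ x, c x * (a.2 x.succ : ℝ) + ∑ x, c x * (b.2 x.succ : ℝ) := by
          rw [← Finset.sum_add_distrib]
          exact Finset.sum_congr rfl fun i _ => by ring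
        rw [this]
        ring
      rw [h2]
      have h3 := abs_add_le (2 * Real.pi * (a.2 0 : ℝ) + y (a.1, fun i => a.2 i.succ))
        (2 * Real.pi * (b.2 0 : ℝ) + y (b.1, fun i => b.2 i.succ))
      have h4 : ((a + b).1, fun i : Fin n => (a + b).2 i.succ) =
          ((a.1, fun i => a.2 i.succ) + (b.1, fun i => b.2 i.succ) : ℤ × (Fin n → ℤ)) := by
        rfl
      rw [h4]
      nlinarith [mul_le_mul_of_nonneg_left h3 heG0.le]
    · intro k a
      rw [hn1, hn1]
      have h1 := hL.smul k (a.1, fun i => a.2 i.succ)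
      have h2 : (2 * Real.pi * ((k • a).2 0 : ℝ) + y ((k • a).1, fun i => (k • a).2 i.succ)) =
          (k : ℝ) * (2 * Real.pi * (a.2 0 : ℝ) + y (a.1, fun i => a.2 i.succ)) := by
        simp only [hy, Prod.smul_snd, Pi.smul_apply, smul_eq_mul, Int.cast_mul]
        have : ∑ x, c x * ((k : ℝ) * (a.2 x.succ : ℝ)) =
            (k : ℝ) * ∑ x, c x * (a.2 x.succ : ℝ) := by
          rw [Finset.mul_sum]
          exact Finset.sum_congr rfl fun i _ => by ring
        rw [this]
        ring
      have h4 : ((k • a).1, fun i : Fin n => (k • a).2 i.succ) =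
          (k • (a.1, fun i => a.2 i.succ) : ℤ × (Fin n → ℤ)) := by
        rfl
      rw [h2, h4, h1, abs_mul]
      ring
    · intro a τ
      rw [arc_prod L n g g' hg0 hgs a.2]
      exact le_trans (hL.conj (a.1, fun i => a.2 i.succ) τ) (Real.exp_le_exp.2 (hle a))
    · intro a
      obtain ⟨q, hq0, hq1, hq2⟩ := hL.den (a.1, fun i => a.2 i.succ)
      rw [arc_prod L n g g' hg0 hgs a.2]
      exact ⟨q, hq0, le_trans hq1 (Real.exp_le_exp.2 (hle a)), hq2⟩
    · intro a
      exact le_trans (hL.co0 (a.1, fun i => a.2 i.succ)) (hle a)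
    · intro a i
      have h4 := hnn (a.1, fun i => a.2 i.succ)
      have h5 := hle a
      have h6 : 0 ≤ nrm' a := le_trans h4 h5
      refine Fin.cases ?_ (fun j => ?_) i
      · refine le_trans (ha0 a) ?_
        apply mul_le_mul_of_nonneg_right _ h6
        nlinarith
      · have h7 := hL.coo (a.1, fun i => a.2 i.succ) j
        refine le_trans h7 ?_
        apply mul_le_mul _ h5 h4 _
        · nlinarith [mul_nonneg hn0 hZ]
        · positivity
    · intro ρ
      have hf1 := hL.fin ρ
      have hf2 : (Set.Icc (-⌈(1 + 40 * n * Z) * |ρ|⌉) ⌈(1 + 40 * n * Z) * |ρ|⌉).Finite :=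
        Set.finite_Icc _ _
      have hf3 := (hf1.prod hf2)
      apply Set.Finite.of_finite_image (f := fun a : ℤ × (Fin (n + 1) → ℤ) =>
        (((a.1, fun i => a.2 i.succ) : ℤ × (Fin n → ℤ)), a.2 0))
      · apply hf3.subset
        rintro _ ⟨a, ha, rfl⟩
        simp only [Set.mem_ofPred_eq] at ha
        refine ⟨le_trans (hle a) ha, ?_⟩
        have h1 := ha0 a
        have h2 : (1 + 40 * n * Z) * nrm' a ≤ (1 + 40 * n * Z) * |ρ| :=
          mul_le_mul_of_nonneg_left (le_trans ha (le_abs_self ρ)) (by positivity)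
        have h3 := Int.le_ceil ((1 + 40 * n * Z) * |ρ|)
        have h4 : |(a.2 0 : ℝ)| ≤ (⌈(1 + 40 * n * Z) * |ρ|⌉ : ℝ) := by linarith
        have h5 : |a.2 0| ≤ ⌈(1 + 40 * n * Z) * |ρ|⌉ := by exact_mod_cast h4
        exact abs_le.1 h5
      · intro a _ b _ h
        simp only [Prod.mk.injEq] at h
        refine Prod.ext h.1.1 ?_
        funext i
        refine Fin.cases h.2 (fun j => ?_) i
        exact congrFun h.1.2 j
    · intro a hane hprod
      rw [arc_prod L n g g' hg0 hgs a.2] at hprod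
      by_cases hz : ((a.1, fun i => a.2 i.succ) : ℤ × (Fin n → ℤ)) = 0
      · have h1 : a.1 = 0 := congrArg Prod.fst hz
        have h2 : ∀ j : Fin n, a.2 j.succ = 0 := fun j => congrFun (congrArg Prod.snd hz) j
        have h3 : a.2 0 ≠ 0 := by
          intro h0
          apply hane
          refine Prod.ext h1 ?_
          funext i
          refine Fin.cases h0 (fun j => h2 j) i
        rw [hn1]
        have h4 : y (a.1, fun i => a.2 i.succ) = 0 := by
          simp only [hy, h2, Int.cast_zero, mul_zero, Finset.sum_const_zero]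
        rw [h4, add_zero, abs_mul, abs_of_pos (show (0 : ℝ) < 2 * Real.pi by positivity)]
        have h5 : (1 : ℝ) ≤ |(a.2 0 : ℝ)| := by
          have := Int.one_le_abs h3
          exact_mod_cast this
        have h6 := hnn (a.1, fun i => a.2 i.succ)
        have h7 : G ≤ Real.exp G := by
          have := Real.add_one_le_exp G
          linarith
        have h8 : (1 : ℝ) ≤ 2 * Real.pi * |(a.2 0 : ℝ)| := by nlinarith
        nlinarith
      · exact le_trans (hL.ker _ hz hprod) (hle a)
  refine ⟨hLD, ?_, ?_⟩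
  · intro i
    refine Fin.cases ?_ (fun j => ?_) i
    · rw [hc0, hg0, map_one]
      push_cast
      exact Complex.exp_two_pi_mul_I
    · rw [hcs j, hgs j]
      exact hcg j
  · intro ρ hρ
    rw [Set.ncard_eq_toFinset_card _ (hL.fin ρ), Set.ncard_eq_toFinset_card _ (hLD.fin (4 * ρ))]
    set S := (hL.fin ρ).toFinset with hS
    set T := (hLD.fin (4 * ρ)).toFinset with hT
    have memS : ∀ a, a ∈ S ↔ nrm a ≤ ρ := by
      intro a
      rw [hS, Set.Finite.mem_toFinset, Set.mem_ofPred_eq]
    have memT : ∀ a, a ∈ T ↔ nrm' a ≤ 4 * ρ := by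
      intro a
      rw [hT, Set.Finite.mem_toFinset, Set.mem_ofPred_eq]
    have hScard : (0 : ℝ) ≤ S.card := Nat.cast_nonneg _
    have hTcard : (0 : ℝ) ≤ T.card := Nat.cast_nonneg _
    have hcons : ∀ (a : ℤ × (Fin n → ℤ)) (t : ℤ), nrm' (a.1, (Fin.cons t a.2 : Fin (n + 1) → ℤ)) =
        nrm a + Real.exp G * |2 * Real.pi * (t : ℝ) + y a| := by
      intro a t
      rw [hn1]
      simp only [Fin.cons_succ, Fin.cons_zero]
    rcases le_or_gt ρ (2 * Real.pi * Real.exp G) with hcase | hcase
    · -- pigeonhole on the circle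
      set x : ℝ := 2 * Real.pi * Real.exp G / ρ with hx
      have hρ0 : 0 < ρ := by linarith
      have hx1 : 1 ≤ x := by
        rw [hx, le_div_iff₀ hρ0]
        linarith
      set M : ℕ := ⌈x⌉₊ with hM
      have hM1 : 1 ≤ M := Nat.one_le_iff_ne_zero.2 (by
        intro h0
        rw [hM, Nat.ceil_eq_zero] at h0
        linarith)
      have hMx : x ≤ M := Nat.le_ceil x
      have hMx2 : (M : ℝ) ≤ 2 * x := by
        have := Nat.ceil_lt_add_one (show 0 ≤ x by linarith)
        linarith
      have hyd : ∀ a b, y (a - b) = y a - y b := by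
        intro a b
        simp only [hy, Prod.snd_sub, Pi.sub_apply, Int.cast_sub]
        rw [← Finset.sum_sub_distrib]
        exact Finset.sum_congr rfl fun i _ => by ring
      have hneg : ∀ b, nrm (-b) = nrm b := by
        intro b
        have := hL.smul (-1) b
        simpa using this
      have hcount := arc_card_one n y hyd S T M hM1 (by
        intro a ha b hb t ht
        rw [memS] at ha hb
        rw [memT, hcons (a - b) (-t)]
        have h1 : nrm (a - b) ≤ 2 * ρ := by
          have := hL.add a (-b)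
          rw [hneg, ← sub_eq_add_neg] at this
          linarith
        have h2 : |2 * Real.pi * ((-t : ℤ) : ℝ) + y (a - b)| ≤ 2 * Real.pi / M := by
          have e : 2 * Real.pi * ((-t : ℤ) : ℝ) + y (a - b) = y (a - b) - 2 * Real.pi * t := by
            push_cast
            ring
          rw [e]
          exact ht
        have h3 : Real.exp G * (2 * Real.pi / M) ≤ ρ := by
          have hMR : (0 : ℝ) < M := by exact_mod_cast hM1
          rw [← mul_div_assoc, div_le_iff₀ hMR]
          have h4 : x * ρ = 2 * Real.pi * Real.exp G := by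
            rw [hx]
            field_simp
          nlinarith
        have h5 := mul_le_mul_of_nonneg_left h2 heG0.le
        linarith)
      have hcountR : (S.card : ℝ) ≤ T.card * M := by exact_mod_cast hcount
      have h4 : x * ρ = 2 * Real.pi * Real.exp G := by
        rw [hx]
        field_simp
      calc ρ * (S.card : ℝ) ≤ ρ * (T.card * M) := mul_le_mul_of_nonneg_left hcountR hρ0.le
        _ ≤ ρ * (T.card * (2 * x)) := by
            apply mul_le_mul_of_nonneg_left _ hρ0.le
            exact mul_le_mul_of_nonneg_left hMx2 hTcard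
        _ = 4 * Real.pi * Real.exp G * T.card := by
            have : ρ * ((T.card : ℝ) * (2 * x)) = 2 * (x * ρ) * T.card := by ring
            rw [this, h4]
            ring
        _ ≤ 20 * Real.exp G * T.card := by
            apply mul_le_mul_of_nonneg_right _ hTcard
            nlinarith
    · -- many integers
      set x : ℝ := ρ / (2 * Real.pi * Real.exp G) with hx
      have hd : 0 < 2 * Real.pi * Real.exp G := by positivity
      have hx1 : 1 ≤ x := by
        rw [hx, le_div_iff₀ hd]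
        linarith
      have hρ0 : 0 < ρ := by linarith
      have hxr : x * (2 * Real.pi * Real.exp G) = ρ := by
        rw [hx]
        field_simp
      set K : ℕ := ⌊x⌋₊ with hK
      have hKx : (K : ℝ) ≤ x := Nat.floor_le (by linarith)
      have hKx2 : x ≤ 2 * K := by
        have h1 := Nat.lt_floor_add_one x
        have h2 : 1 ≤ K := Nat.le_floor (by rw [Nat.cast_one]; exact hx1)
        have h3 : (1 : ℝ) ≤ K := by exact_mod_cast h2
        rw [← hK] at h1
        linarith
      have hcount := arc_card_two n y S T K (by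
        intro a ha t ht
        rw [memS] at ha
        rw [memT, hcons a t]
        have h1 : |2 * Real.pi * (t : ℝ) + y a| ≤ 2 * Real.pi * K := by
          rw [add_comm]
          exact ht
        have h5 := mul_le_mul_of_nonneg_left h1 heG0.le
        have h6 : Real.exp G * (2 * Real.pi * K) ≤ ρ := by
          have : Real.exp G * (2 * Real.pi * K) = K * (2 * Real.pi * Real.exp G) := by ring
          rw [this, ← hxr]
          exact mul_le_mul_of_nonneg_right hKx hd.le
        linarith)
      have hcountR : (S.card : ℝ) * K ≤ T.card := by exact_mod_cast hcount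
      calc ρ * (S.card : ℝ) = x * (2 * Real.pi * Real.exp G) * S.card := by rw [hxr]
        _ ≤ (2 * K) * (2 * Real.pi * Real.exp G) * S.card := by
            apply mul_le_mul_of_nonneg_right _ hScard
            exact mul_le_mul_of_nonneg_right hKx2 hd.le
        _ = 4 * Real.pi * Real.exp G * (S.card * K) := by ring
        _ ≤ 4 * Real.pi * Real.exp G * T.card := by
            apply mul_le_mul_of_nonneg_left hcountR
            positivity
        _ ≤ 20 * Real.exp G * T.card := by
            apply mul_le_mul_of_nonneg_right _ hTcard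
            nlinarith

end Pool.Helper99.SZ
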